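import Mathlib

set_option autoImplicit false

/-!
# The tail correlation spindle is not positive semidefinite for `n ≥ 6`

`TCF n` is the polytope of tail correlation functions on `n` points. `Spindle n` is the polyhedron
`TCF_n(v₀, v₁)` cut out by the facet-defining inequalities of `TCF n` whose facets contain
`v₀ = (0, …, 0)` or `v₁ = (1, …, 1)`. It is shown that `Spindle n` is not contained in the set
`PSD n` for every `n ≥ 6` (the open part of the question is `n ≥ 7`; the inclusion is known for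
`2 ≤ n ≤ 5`, and known to fail for `n = 6`).
-/

open MeasureTheory

namespace Pool.Agent.Results.MP_db83b6_pr.FailsFromSix

/-- The pairs `i < j` of elements of `{1, …, n}` (here `Fin n`). -/
abbrev E (n : ℕ) : Type := {p : Fin n × Fin n // p.1 < p.2}

/-- The polytope `TCF_n` of tail correlation functions: the vectors `χ` for which there are a
probability space and events `A_i` with `ℙ(A_i) = 1 / n` and `χ_ij = n ℙ(A_i ∩ A_j)`. -/
def TCF (n : ℕ) : Set (E n → ℝ) :=
  {χ | ∃ (Ω : Type) (_ : MeasurableSpace Ω) (P : Measure Ω), IsProbabilityMeasure P ∧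
    ∃ A : Fin n → Set Ω, (∀ i, MeasurableSet (A i)) ∧ (∀ i, P.real (A i) = 1 / (n : ℝ)) ∧
      ∀ e : E n, χ e = n * P.real (A e.1.1 ∩ A e.1.2)}

/-- The face of `TCF_n` on which the inequality `a · x ≤ b` is an equality. -/
def face (n : ℕ) (a : E n → ℝ) (b : ℝ) : Set (E n → ℝ) := {x | x ∈ TCF n ∧ ∑ e, a e * x e = b}

/-- The inequality `a · x ≤ b` is facet-defining for `TCF_n`: it holds on `TCF_n`, and the face on
which it is an equality has dimension `(n choose 2) - 1`. -/
def IsFacetInequality (n : ℕ) (a : E n → ℝ) (b : ℝ) : Prop :=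
  (∀ x ∈ TCF n, ∑ e, a e * x e ≤ b) ∧ (face n a b).Nonempty ∧
    Module.finrank ℝ (vectorSpan ℝ (face n a b)) + 1 = Fintype.card (E n)

/-- `TCF_n(v₀, v₁)`: the set cut out by the facet-defining inequalities of `TCF_n` for all facets that
contain `v₀ = (0, …, 0)` or `v₁ = (1, …, 1)`. -/
def Spindle (n : ℕ) : Set (E n → ℝ) :=
  {x | ∀ (a : E n → ℝ) (b : ℝ), IsFacetInequality n a b →
    ((fun _ => 0) ∈ face n a b ∨ (fun _ => 1) ∈ face n a b) → ∑ e, a e * x e ≤ b}

/-- The symmetric matrix `X(x)` with diagonal entries `1` and off-diagonal entries `x_ij`. -/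
def X {n : ℕ} (x : E n → ℝ) : Matrix (Fin n) (Fin n) ℝ :=
  fun i j => if h : i < j then x ⟨(i, j), h⟩ else if h : j < i then x ⟨(j, i), h⟩ else 1

/-- The vectors `x` with positive semidefinite `X(x)`. -/
def PSD (n : ℕ) : Set (E n → ℝ) := {x | (X x).PosSemidef}

/-- Uniform probability on a nonempty finite type: the measure of a set. -/
lemma unif_real {Ω : Type} [Fintype Ω] [DecidableEq Ω] [MeasurableSpace Ω] [DiscreteMeasurableSpace Ω]
    [Nonempty Ω] (s : Finset Ω) :
    (ProbabilityTheory.uniformOn (Set.univ : Set Ω)).real (s : Set Ω)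
      = (s.card : ℝ) / (Fintype.card Ω : ℝ) := by
  rw [measureReal_def, ProbabilityTheory.uniformOn_univ, Measure.count_apply_finset]
  simp

/-- The vertex with a single coordinate `1`. -/
lemma single_mem (n : ℕ) (e₀ : E n) : (Pi.single e₀ 1 : E n → ℝ) ∈ TCF n := by
  classical
  obtain ⟨⟨i₀, j₀⟩, hlt⟩ := e₀
  have hn : 0 < n := lt_of_le_of_lt (Nat.zero_le _) i₀.2
  have : Nonempty (Fin n) := ⟨i₀⟩
  have hn' : (n : ℝ) ≠ 0 := by positivity
  refine ⟨Fin n, ⊤, ProbabilityTheory.uniformOn Set.univ, ?_,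
    fun k => (({if k = j₀ then i₀ else k} : Finset (Fin n)) : Set (Fin n)), fun _ => trivial, ?_, ?_⟩
  · exact ProbabilityTheory.isProbabilityMeasure_uniformOn Set.finite_univ Set.univ_nonempty
  · intro i
    let _ : MeasurableSpace (Fin n) := ⊤
    rw [unif_real]
    simp
  · rintro ⟨⟨i, j⟩, hij⟩
    let _ : MeasurableSpace (Fin n) := ⊤
    simp only at hij hlt ⊢
    rw [← Finset.coe_inter, unif_real]
    by_cases h : (⟨(i, j), hij⟩ : E n) = ⟨(i₀, j₀), hlt⟩
    · rw [h, Pi.single_eq_same]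
      rw [Subtype.mk.injEq, Prod.mk.injEq] at h
      obtain ⟨rfl, rfl⟩ := h
      have : ({if i = j then i else i} : Finset (Fin n)) ∩ {if j = j then i else j} = {i} := by
        simp
      rw [this]
      simp only [Finset.card_singleton, Nat.cast_one, Fintype.card_fin]
      field_simp
    · rw [Pi.single_eq_of_ne h]
      have : ({if i = j₀ then i₀ else i} : Finset (Fin n)) ∩ {if j = j₀ then i₀ else j} = ∅ := by
        rw [Finset.singleton_inter_of_notMem]
        rw [Finset.mem_singleton]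
        intro h2
        apply h
        split_ifs at h2 with h3 h4 h4
        · rw [h3, h4] at hij; exact absurd hij (lt_irrefl _)
        · subst h3; subst h2; exact absurd (hij.trans hlt) (lt_irrefl _)
        · subst h2; subst h4; rfl
        · subst h2; exact absurd hij (lt_irrefl _)
      rw [this]; simp

/-- A point of the spindle: `x_ij = 0` for `i < j < 5`, `x_ij = 1 / 2` for `i < 5 ≤ j`, and
`x_ij = 1` for `5 ≤ i < j` (indices counted from `0`). -/
noncomputable def pt (n : ℕ) : E n → ℝ := fun e =>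
  if (e.1.2 : ℕ) < 5 then 0 else if (e.1.1 : ℕ) < 5 then 1 / 2 else 1

/-- The index `i < 5` as a subset of `Fin 5` (empty for `i ≥ 5`). -/
def sub (i : ℕ) : Finset (Fin 5) := Finset.univ.filter fun k => (k : ℕ) = i

/-- The events: `{(k, 0) : k = i} ∪ {(k, 1) : k ≠ i}`. -/
def ev (n : ℕ) (z o : Fin n) (i : ℕ) : Finset (Fin 5 × Fin n) :=
  (sub i) ×ˢ {z} ∪ (sub i)ᶜ ×ˢ {o}

lemma card_ev (n : ℕ) {z o : Fin n} (h : z ≠ o) (i : ℕ) : (ev n z o i).card = 5 := by
  unfold ev
  rw [Finset.card_union_of_disjoint, Finset.card_product, Finset.card_product,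
    Finset.card_singleton, Finset.card_singleton, mul_one, mul_one, Finset.card_add_card_compl]
  · simp
  · rw [Finset.disjoint_product]
    right
    simpa using h

lemma card_inter (n : ℕ) {z o : Fin n} (h : z ≠ o) (i j : ℕ) :
    (ev n z o i ∩ ev n z o j).card = (sub i ∩ sub j).card + ((sub i)ᶜ ∩ (sub j)ᶜ).card := by
  have : ev n z o i ∩ ev n z o j = (sub i ∩ sub j) ×ˢ {z} ∪ ((sub i)ᶜ ∩ (sub j)ᶜ) ×ˢ {o} := by
    ext ⟨a, b⟩
    simp only [ev, Finset.mem_inter, Finset.mem_union, Finset.mem_product, Finset.mem_singleton]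
    constructor
    · rintro ⟨h1 | h1, h2 | h2⟩
      · exact Or.inl ⟨⟨h1.1, h2.1⟩, h1.2⟩
      · exact absurd (h1.2.symm.trans h2.2) h
      · exact absurd (h2.2.symm.trans h1.2) h
      · exact Or.inr ⟨⟨h1.1, h2.1⟩, h1.2⟩
    · rintro (⟨⟨h1, h2⟩, h3⟩ | ⟨⟨h1, h2⟩, h3⟩)
      · exact ⟨Or.inl ⟨h1, h3⟩, Or.inl ⟨h2, h3⟩⟩
      · exact ⟨Or.inr ⟨h1, h3⟩, Or.inr ⟨h2, h3⟩⟩
  rw [this, Finset.card_union_of_disjoint, Finset.card_product, Finset.card_product,
    Finset.card_singleton, Finset.card_singleton, mul_one, mul_one]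
  rw [Finset.disjoint_product]
  right
  simpa using h

lemma sub_ge {i : ℕ} (h : 5 ≤ i) : sub i = ∅ := by
  unfold sub
  rw [Finset.filter_eq_empty_iff]
  intro k _ hk
  have := k.2
  omega

/-- The point `3/5 + 2/5 pt` is a tail correlation function. -/
lemma mid_mem (n : ℕ) (hn : 2 ≤ n) : (fun e => 3 / 5 + 2 / 5 * pt n e) ∈ TCF n := by
  classical
  have h0 : 0 < n := by omega
  have h1 : 1 < n := by omega
  have hn' : (n : ℝ) ≠ 0 := by positivity
  let z : Fin n := ⟨0, h0⟩
  let o : Fin n := ⟨1, h1⟩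
  have hzo : z ≠ o := by
    intro h
    have := congrArg Fin.val h
    simp [z, o] at this
  have : Nonempty (Fin 5 × Fin n) := ⟨(0, z)⟩
  refine ⟨Fin 5 × Fin n, inferInstance, ProbabilityTheory.uniformOn Set.univ, ?_,
    fun k => ((ev n z o k : Finset (Fin 5 × Fin n)) : Set (Fin 5 × Fin n)),
    fun _ => MeasurableSet.of_discrete, ?_, ?_⟩
  · exact ProbabilityTheory.isProbabilityMeasure_uniformOn Set.finite_univ Set.univ_nonempty
  · intro i
    rw [unif_real, card_ev n hzo]
    simp only [Fintype.card_prod, Fintype.card_fin]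
    push_cast
    field_simp
  · rintro ⟨⟨i, j⟩, hij⟩
    simp only [pt]
    rw [← Finset.coe_inter, unif_real, card_inter n hzo]
    simp only [Fintype.card_prod, Fintype.card_fin]
    have hij' : (i : ℕ) < (j : ℕ) := hij
    by_cases hj : (j : ℕ) < 5
    · have hc : (sub (i : ℕ) ∩ sub (j : ℕ)).card + ((sub (i : ℕ))ᶜ ∩ (sub (j : ℕ))ᶜ).card = 3 := by
        generalize (i : ℕ) = a at *
        generalize (j : ℕ) = b at *
        interval_cases b <;> interval_cases a <;> decide
      rw [hc, if_pos hj]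
      push_cast
      field_simp
      norm_num
    · rw [if_neg hj, sub_ge (not_lt.1 hj)]
      by_cases hi : (i : ℕ) < 5
      · have hc : (sub (i : ℕ) ∩ (∅ : Finset (Fin 5))).card +
            ((sub (i : ℕ))ᶜ ∩ (∅ : Finset (Fin 5))ᶜ).card = 4 := by
          generalize (i : ℕ) = a at *
          interval_cases a <;> decide
        rw [hc, if_pos hi]
        push_cast
        field_simp
        norm_num
      · rw [if_neg hi, sub_ge (not_lt.1 hi)]
        have hc : ((∅ : Finset (Fin 5)) ∩ (∅ : Finset (Fin 5))).card +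
            ((∅ : Finset (Fin 5))ᶜ ∩ (∅ : Finset (Fin 5))ᶜ).card = 5 := by decide
        rw [hc]
        push_cast
        field_simp
        norm_num

lemma pt_nonneg (n : ℕ) (e : E n) : 0 ≤ pt n e := by
  unfold pt
  split_ifs <;> norm_num

/-- `pt n` lies in `TCF_n(v₀, v₁)`. -/
lemma pt_mem (n : ℕ) (hn : 2 ≤ n) : pt n ∈ Spindle n := by
  classical
  intro a b hf hv
  rcases hv with hv | hv
  · have hb : b = 0 := by
      have := hv.2
      simpa using this.symm
    have ha : ∀ e, a e ≤ 0 := by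
      intro e
      have := hf.1 _ (single_mem n e)
      rw [hb] at this
      simpa [Pi.single_apply] using this
    rw [hb]
    exact Finset.sum_nonpos fun e _ => mul_nonpos_of_nonpos_of_nonneg (ha e) (pt_nonneg n e)
  · have hb : ∑ e, a e = b := by
      have := hv.2
      simpa using this
    have h := hf.1 _ (mid_mem n hn)
    have h2 : ∑ e, a e * (3 / 5 + 2 / 5 * pt n e) = 3 / 5 * ∑ e, a e + 2 / 5 * ∑ e, a e * pt n e := by
      rw [Finset.mul_sum, Finset.mul_sum, ← Finset.sum_add_distrib]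
      exact Finset.sum_congr rfl fun e _ => by ring
    rw [h2, hb] at h
    linarith

/-- `pt n` does not lie in `PSD_n` for `n ≥ 6`. -/
lemma pt_not_psd (n : ℕ) (hn : 6 ≤ n) : pt n ∉ PSD n := by
  intro h
  have h' : (X (pt n)).PosSemidef := h
  let f : Fin 6 → Fin n := fun k => ⟨k, by omega⟩
  have hs := h'.submatrix f
  have h2 := hs.dotProduct_mulVec_nonneg (![1, 1, 1, 1, 1, -2] : Fin 6 → ℝ)
  have hX : (X (pt n)).submatrix f f = !![1, 0, 0, 0, 0, 1/2; 0, 1, 0, 0, 0, 1/2; 0, 0, 1, 0, 0, 1/2;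
      0, 0, 0, 1, 0, 1/2; 0, 0, 0, 0, 1, 1/2; 1/2, 1/2, 1/2, 1/2, 1/2, 1] := by
    ext i j
    fin_cases i <;> fin_cases j <;> simp [X, pt, f]
  rw [hX] at h2
  simp [dotProduct, Matrix.mulVec, Fin.sum_univ_succ] at h2
  norm_num at h2

/-- For every `n ≥ 6` the polyhedron `TCF_n(v₀, v₁)` is not contained in `PSD_n`. -/
theorem result : ∀ n : ℕ, 6 ≤ n → ¬ (Spindle n ⊆ PSD n) :=
  fun n hn h => pt_not_psd n hn (h (pt_mem n (by omega)))

end Pool.Agent.Results.MP_db83b6_pr.FailsFromSix
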